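import Pool.Agent.TH505.OCDC.Decomp
import Pool.Agent.H126R2.CDC.Main

set_option autoImplicit false

/-!
Oriented covers of bridgeless simple graphs from eight even subgraphs that cover every edge twice.
-/

namespace Pool.Agent.TH505.OCDC

open Finset
open Pool.Agent.H126R2.CDC (T3 IsFl exists_double_cover)
open Pool.Agent.Helper879.ECD (F2 IsFlow cn)

variable {V : Type}

/-- no cut edge -/
def NoCut (G : SimpleGraph V) : Prop :=
  ∀ u v : V, G.Adj u v → (G.deleteEdges {s(u, v)}).Reachable u v

/-- the two half-edges of an edge -/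
noncomputable def hv (G : SimpleGraph V) (h : G.edgeSet × Bool) : V :=
  if h.2 then (Quot.out h.1.1).2 else (Quot.out h.1.1).1

lemma hv_ends (G : SimpleGraph V) (e : G.edgeSet) : s(hv G (e, false), hv G (e, true)) = e.1 := by
  have h : Quot.mk _ (Quot.out e.1) = e.1 := Quot.out_eq e.1
  unfold hv
  simp only [Bool.false_eq_true, if_false, if_true]
  exact h

lemma no_one_cut [Fintype V] [DecidableEq V] (G : SimpleGraph V) [Fintype G.edgeSet]
    (hG : NoCut G) (X : Finset V) :
    cn (fun e : G.edgeSet => hv G (e, false)) (fun e => hv G (e, true)) univ X ≠ 1 := by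
  intro h
  unfold cn at h
  obtain ⟨e, he⟩ := Finset.card_eq_one.1 h
  have hmem : ∀ f : G.edgeSet, ¬ (hv G (f, false) ∈ X ↔ hv G (f, true) ∈ X) ↔ f = e := by
    intro f
    have : f ∈ univ.filter (fun e => ¬ (hv G (e, false) ∈ X ↔ hv G (e, true) ∈ X)) ↔
        f ∈ ({e} : Finset G.edgeSet) := by rw [he]
    simpa using this
  -- an edge with one end in `X` is `e`
  have hcross : ∀ (x y : V) (hxy : G.Adj x y), x ∈ X → y ∉ X →
      (⟨s(x, y), hxy⟩ : G.edgeSet) = e := by
    intro x y hxy hx hy
    rw [← hmem]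
    have h1 := hv_ends G ⟨s(x, y), hxy⟩
    simp only [Sym2.eq_iff] at h1
    rcases h1 with ⟨h1, h2⟩ | ⟨h1, h2⟩
    · rw [h1, h2]; tauto
    · rw [h1, h2]; tauto
  have hadj : G.Adj (hv G (e, false)) (hv G (e, true)) := by
    have h1 := hv_ends G e
    have h2 := e.2
    rw [← h1] at h2
    exact h2
  have hcr : ∀ x y : V, G.Adj x y → s(x, y) = e.1 → x ∈ X → y ∉ X → False := by
    intro x y hxy hs hx hy
    obtain ⟨p⟩ := hG x y hxy
    obtain ⟨d, hd, hd1, hd2⟩ := p.exists_boundary_dart (X : Set V) hx hy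
    have h1 := d.adj
    rw [SimpleGraph.deleteEdges_adj] at h1
    have h2 := hcross d.fst d.snd h1.1 (by simpa using hd1) (by simpa using hd2)
    apply h1.2
    rw [Set.mem_singleton_iff]
    exact (congrArg Subtype.val h2).trans hs.symm
  have h1 := (hmem e).2 rfl
  by_cases hx : hv G (e, false) ∈ X
  · have hy : hv G (e, true) ∉ X := fun hy => h1 ⟨fun _ => hy, fun _ => hx⟩
    exact hcr _ _ hadj (hv_ends G e) hx hy
  · have hy : hv G (e, true) ∈ X := by
      by_contra hy; exact h1 ⟨fun h => absurd h hx, fun h => absurd h hy⟩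
    exact hcr _ _ hadj.symm (by rw [Sym2.eq_swap]; exact hv_ends G e) hy hx

/-- Eight even subgraphs cover every edge exactly twice, in terms of ordered pairs. -/
theorem exists_T [Fintype V] (G : SimpleGraph V) (hG : NoCut G) :
    ∃ T : V → V → Finset T3, (∀ u v, T u v = T v u) ∧ (∀ u v, ¬ G.Adj u v → T u v = ∅) ∧
      (∀ u v, G.Adj u v → (T u v).card = 2) ∧
      ∀ c v, Even (∑ w, ind (c ∈ T v w)) := by
  classical
  obtain ⟨S, hS1, hS2⟩ := exists_double_cover (hv G) (no_one_cut G hG)
  let T : V → V → Finset T3 := fun u v => if h : G.Adj u v then S ⟨s(u, v), h⟩ else ∅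
  have hT : ∀ u v (h : G.Adj u v), T u v = S ⟨s(u, v), h⟩ := fun u v h => by
    simp only [T, dif_pos h]
  have hT0 : ∀ u v, ¬ G.Adj u v → T u v = ∅ := fun u v h => by simp only [T, dif_neg h]
  refine ⟨T, ?_, hT0, ?_, ?_⟩
  · intro u v
    by_cases h : G.Adj u v
    · rw [hT u v h, hT v u h.symm]
      congr 1
      exact Subtype.ext Sym2.eq_swap
    · rw [hT0 u v h, hT0 v u (fun h' => h h'.symm)]
  · intro u v h
    rw [hT u v h]
    exact hS1 _
  · intro c w
    have h1 := hS2 c w
    rw [← ZMod.natCast_eq_zero_iff_even, Nat.cast_sum]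
    refine Eq.trans ?_ h1
    -- split the sum over half-edges by the other end
    have h2 : ∀ h : G.edgeSet × Bool,
        (if hv G h = w then (if c ∈ S h.1 then (1 : F2) else 0) else 0) =
        ∑ w', (if hv G h = w ∧ hv G (h.1, !h.2) = w' then (if c ∈ S h.1 then (1 : F2) else 0)
          else 0) := by
      intro h
      by_cases h3 : hv G h = w
      · simp [h3]
      · simp [h3]
    rw [Finset.sum_congr rfl (fun h _ => h2 h), Finset.sum_comm]
    apply Finset.sum_congr rfl
    intro w' _
    by_cases hadj : G.Adj w w'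
    · rw [hT w w' hadj]
      set e0 : G.edgeSet := ⟨s(w, w'), hadj⟩ with he0
      have h4 : (ind (c ∈ S e0) : F2) = (if c ∈ S e0 then (1 : F2) else 0) := by
        by_cases h5 : c ∈ S e0
        · rw [ind_pos h5, if_pos h5]; rfl
        · rw [ind_neg h5, if_neg h5]; rfl
      rw [h4, Fintype.sum_prod_type, Finset.sum_eq_single e0]
      · have h5 := hv_ends G e0
        rw [he0] at h5
        simp only [Sym2.eq_iff] at h5
        rw [Fintype.sum_bool]
        rcases h5 with ⟨h5, h6⟩ | ⟨h5, h6⟩
        · simp only [← he0] at h5 h6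
          simp only [Bool.not_true, Bool.not_false, h5, h6, hadj.ne, hadj.ne', false_and, if_false,
            true_and, if_true, zero_add, and_self]
        · simp only [← he0] at h5 h6
          simp only [Bool.not_true, Bool.not_false, h5, h6, hadj.ne, hadj.ne', false_and, if_false,
            true_and, if_true, add_zero, and_self]
      · intro e _ hne
        rw [Fintype.sum_bool]
        have h5 := hv_ends G e
        have h6 : ∀ x y, s(x, y) = e.1 → ¬ (x = w ∧ y = w') := by
          rintro x y hxy ⟨rfl, rfl⟩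
          exact hne (Subtype.ext hxy.symm)
        rw [if_neg, if_neg, add_zero]
        · simpa using h6 _ _ h5
        · have := h6 (hv G (e, true)) (hv G (e, false)) (by rw [Sym2.eq_swap]; exact h5)
          simpa using this
      · intro h; exact absurd (mem_univ _) h
    · rw [hT0 w w' hadj, ind_neg (by simp), Nat.cast_zero, eq_comm]
      apply Finset.sum_eq_zero
      intro h _
      rw [if_neg]
      rintro ⟨h3, h4⟩
      apply hadj
      have h5 := hv_ends G h.1
      have h6 := h.1.2
      obtain ⟨e, b⟩ := h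
      cases b with
      | false =>
        simp only [Bool.not_false] at h4
        rw [← h5, h3] at h6
        rw [h4] at h6
        exact h6
      | true =>
        simp only [Bool.not_true] at h4
        rw [← h5, h3] at h6
        rw [h4] at h6
        exact h6.symm

/-- Eight conservative antisymmetric functions with values in `{-1, 0, 1}`, every edge having
exactly two nonzero values. -/
theorem exists_flows [Fintype V] (G : SimpleGraph V) (hG : NoCut G) :
    ∃ g : T3 → V → V → ℤ, (∀ c u v, g c v u = - g c u v) ∧ (∀ c u, ∑ w, g c u w = 0) ∧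
      (∀ c u v, ¬ G.Adj u v → g c u v = 0) ∧
      ∀ u v, G.Adj u v → ∃ a b : T3, a ≠ b ∧ (g a u v = 1 ∨ g a u v = -1) ∧
        (g b u v = 1 ∨ g b u v = -1) ∧ ∀ c, c ≠ a → c ≠ b → g c u v = 0 := by
  classical
  obtain ⟨T, hT1, hT2, hT3, hT4⟩ := exists_T G hG
  have hor : ∀ c : T3, ∃ g : V → V → ℤ, (∀ u v, g v u = - g u v) ∧
      (∀ u v, c ∈ T u v → g u v = 1 ∨ g u v = -1) ∧
      (∀ u v, ¬ c ∈ T u v → g u v = 0) ∧ ∀ u, ∑ w, g u w = 0 := by
    intro c
    refine orient G _ (fun u v => c ∈ T u v) rfl ?_ ?_ (hT4 c)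
    · intro u v h
      by_contra h'
      rw [hT2 u v h'] at h
      simp at h
    · intro u v h
      rw [hT1 v u]; exact h
  choose g hg1 hg2 hg3 hg4 using hor
  refine ⟨g, hg1, hg4, ?_, ?_⟩
  · intro c u v h
    apply hg3
    rw [hT2 u v h]
    simp
  · intro u v h
    obtain ⟨a, b, hab, hTab⟩ := Finset.card_eq_two.1 (hT3 u v h)
    refine ⟨a, b, hab, hg2 a u v (by rw [hTab]; simp), hg2 b u v (by rw [hTab]; simp), ?_⟩
    intro c hca hcb
    apply hg3
    rw [hTab]
    simp [hca, hcb]

/-- the property that some list of directed cycles traverses every arc exactly `k` times -/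
def KFold (G : SimpleGraph V) (k : ℕ) : Prop :=
  ∃ C : List (Σ v : V, G.Walk v v), (∀ c ∈ C, c.2.IsCycle) ∧ ∀ u v, G.Adj u v → tot C u v = k

lemma KFold.add {G : SimpleGraph V} {j k : ℕ} (hj : KFold G j) (hk : KFold G k) :
    KFold G (j + k) := by
  obtain ⟨C, hC1, hC2⟩ := hj
  obtain ⟨D, hD1, hD2⟩ := hk
  refine ⟨C ++ D, ?_, ?_⟩
  · intro c hc
    rw [List.mem_append] at hc
    rcases hc with hc | hc
    · exact hC1 c hc
    · exact hD1 c hc
  · intro u v h
    rw [tot_append, hC2 u v h, hD2 u v h]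

/-- Many flows at once. -/
theorem flows_decomp [Fintype V] {G : SimpleGraph V} {ι : Type} (L : List ι) (g : ι → V → V → ℤ)
    (hanti : ∀ i u v, g i v u = - g i u v)
    (hval : ∀ i u v, g i u v = 0 ∨ g i u v = 1 ∨ g i u v = -1)
    (hsupp : ∀ i u v, g i u v ≠ 0 → G.Adj u v)
    (hcons : ∀ i u, ∑ w, g i u w = 0) :
    ∃ C : List (Σ v : V, G.Walk v v), (∀ c ∈ C, c.2.IsCycle) ∧
      ∀ u v, tot C u v = (L.map (fun i => ind (g i u v = 1))).sum := by
  induction L with
  | nil => exact ⟨[], by simp, fun u v => by simp [tot]⟩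
  | cons i L ih =>
    obtain ⟨C, hC1, hC2⟩ := ih
    obtain ⟨D, hD1, hD2⟩ := flow_decomp (g i) (hanti i) (hval i) (hsupp i) (hcons i)
    refine ⟨D ++ C, ?_, ?_⟩
    · intro c hc
      rw [List.mem_append] at hc
      rcases hc with hc | hc
      · exact hD1 c hc
      · exact hC1 c hc
    · intro u v
      rw [tot_append, hC2, hD2]
      simp

end Pool.Agent.TH505.OCDC
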