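import Pool.Agent.TH505.OCDC.Walks

set_option autoImplicit false

/-!
Decomposition of balanced arc sets into directed cycles; Eulerian orientations.
-/

namespace Pool.Agent.TH505.OCDC

open Finset

variable {V : Type} {G : SimpleGraph V}

/-- total number of traversals of the arc `(u, v)` by a list of closed walks -/
noncomputable def tot (C : List (Σ v : V, G.Walk v v)) (u v : V) : ℕ :=
  (C.map (fun c => dc c.2 u v)).sum

lemma tot_nil (u v : V) : tot ([] : List (Σ v : V, G.Walk v v)) u v = 0 := rfl

lemma tot_cons (c : Σ v : V, G.Walk v v) (C : List (Σ v : V, G.Walk v v)) (u v : V) :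
    tot (c :: C) u v = dc c.2 u v + tot C u v := by
  simp [tot]

lemma tot_append (C D : List (Σ v : V, G.Walk v v)) (u v : V) :
    tot (C ++ D) u v = tot C u v + tot D u v := by
  simp [tot]

open scoped Classical in
/-- the indicator of a proposition -/
noncomputable def ind (p : Prop) : ℕ := if p then 1 else 0

lemma ind_pos {p : Prop} (h : p) : ind p = 1 := by unfold ind; exact if_pos h

lemma ind_neg {p : Prop} (h : ¬ p) : ind p = 0 := by unfold ind; exact if_neg h

lemma cycle_has_dart {x : V} {c : G.Walk x x} (hc : c.IsCycle) : ∃ d, d ∈ c.darts := by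
  cases c with
  | nil => exact absurd rfl hc.ne_nil
  | cons h p => exact ⟨⟨(_, _), h⟩, by rw [SimpleGraph.Walk.darts_cons]; exact List.mem_cons_self⟩

lemma dc_pos_of_mem {x y : V} (p : G.Walk x y) {d : G.Dart} (hd : d ∈ p.darts) :
    0 < dc p d.fst d.snd := by
  classical
  unfold dc
  rw [List.length_pos_iff_exists_mem]
  exact ⟨d, List.mem_filter.2 ⟨hd, by simp⟩⟩

lemma sum2_pos [Fintype V] {f : V → V → ℕ} {u v : V} (h : 0 < f u v) : 0 < ∑ u, ∑ v, f u v := by
  refine Finset.sum_pos' (fun _ _ => Nat.zero_le _) ⟨u, mem_univ _, ?_⟩
  exact Finset.sum_pos' (fun _ _ => Nat.zero_le _) ⟨v, mem_univ _, h⟩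

/-- A balanced set of arcs without opposite arcs decomposes into directed cycles. -/
theorem directed_decomp [Fintype V] : ∀ (n : ℕ) (A : V → V → Prop),
    ∑ u, ∑ v, ind (A u v) = n →
    (∀ u v, A u v → G.Adj u v) → (∀ u v, A u v → ¬ A v u) →
    (∀ v, ∑ w, ind (A v w) = ∑ w, ind (A w v)) →
    ∃ C : List (Σ v : V, G.Walk v v), (∀ c ∈ C, c.2.IsCycle) ∧
      ∀ u v, tot C u v = ind (A u v) := by
  intro n
  induction n using Nat.strong_induction_on with
  | _ n ih =>
    intro A hcard hadj hopp hbal
    by_cases hne : ∃ u v, A u v
    · have hext : ∀ u v, A u v → ∃ w, w ≠ v ∧ A w u := by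
        intro u v huv
        have h1 : 0 < ∑ w, ind (A u w) := by
          refine Finset.sum_pos' (fun _ _ => Nat.zero_le _) ⟨v, mem_univ _, ?_⟩
          rw [ind_pos huv]; exact Nat.one_pos
        rw [hbal u] at h1
        obtain ⟨w, _, hw⟩ := Finset.exists_ne_zero_of_sum_ne_zero h1.ne'
        have hwu : A w u := by
          by_contra h; exact hw (ind_neg h)
        refine ⟨w, ?_, hwu⟩
        rintro rfl
        exact hopp _ _ huv hwu
      obtain ⟨x, c, hc, hcA⟩ := exists_cycle A hadj hne hext
      have hdcA : ∀ u v, 0 < dc c u v → A u v := by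
        intro u v h
        obtain ⟨d, hd, hd2⟩ := dc_pos c h
        have := hcA d hd
        rwa [show d.fst = u from congrArg Prod.fst hd2,
          show d.snd = v from congrArg Prod.snd hd2] at this
      have hle : ∀ u v, dc c u v ≤ 1 := by
        intro u v
        by_cases huv : u = v
        · rw [huv, dc_self]; exact Nat.zero_le _
        · have := dc_le_one hc.isTrail huv
          omega
      have hsplit : ∀ u v, ind (A u v) = ind (A u v ∧ dc c u v = 0) + dc c u v := by
        intro u v
        by_cases hA : A u v
        · by_cases h0 : dc c u v = 0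
          · rw [ind_pos hA, ind_pos ⟨hA, h0⟩, h0]
          · rw [ind_pos hA, ind_neg (fun h => h0 h.2)]
            have := hle u v
            omega
        · rw [ind_neg hA, ind_neg (fun h => hA h.1)]
          have : ¬ 0 < dc c u v := fun h => hA (hdcA u v h)
          omega
      obtain ⟨d, hd⟩ := cycle_has_dart hc
      have hlt : ∑ u, ∑ v, ind (A u v ∧ dc c u v = 0) < n := by
        rw [← hcard, Finset.sum_congr rfl (fun u _ => Finset.sum_congr rfl (fun v _ => hsplit u v))]
        simp only [Finset.sum_add_distrib]
        have := sum2_pos (dc_pos_of_mem c hd)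
        omega
      obtain ⟨C, hC1, hC2⟩ := ih _ hlt (fun u v => A u v ∧ dc c u v = 0) rfl
        (fun u v h => hadj u v h.1) (fun u v h h' => hopp u v h.1 h'.1) (by
          intro v
          have h1 := hbal v
          rw [Finset.sum_congr rfl (fun w _ => hsplit v w),
            Finset.sum_congr rfl (fun w _ => hsplit w v), Finset.sum_add_distrib,
            Finset.sum_add_distrib, dc_closed c v] at h1
          exact Nat.add_right_cancel h1)
      refine ⟨⟨x, c⟩ :: C, ?_, ?_⟩
      · intro c' hc'
        rw [List.mem_cons] at hc'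
        rcases hc' with hc' | hc'
        · rw [hc']; exact hc
        · exact hC1 c' hc'
      · intro u v
        rw [tot_cons, hC2, hsplit u v]
        exact Nat.add_comm _ _
    · refine ⟨[], by simp, ?_⟩
      intro u v
      rw [tot_nil, ind_neg]
      exact fun h => hne ⟨u, v, h⟩

/-- An even subgraph has an Eulerian orientation, as an antisymmetric function. -/
theorem orient [Fintype V] (G : SimpleGraph V) : ∀ (n : ℕ) (R : V → V → Prop),
    ∑ u, ∑ v, ind (R u v) = n →
    (∀ u v, R u v → G.Adj u v) → (∀ u v, R u v → R v u) →
    (∀ v, Even (∑ w, ind (R v w))) →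
    ∃ g : V → V → ℤ, (∀ u v, g v u = - g u v) ∧ (∀ u v, R u v → g u v = 1 ∨ g u v = -1) ∧
      (∀ u v, ¬ R u v → g u v = 0) ∧ ∀ u, ∑ w, g u w = 0 := by
  intro n
  induction n using Nat.strong_induction_on with
  | _ n ih =>
    intro R hcard hadj hsymm heven
    by_cases hne : ∃ u v, R u v
    · have hext : ∀ u v, R u v → ∃ w, w ≠ v ∧ R w u := by
        intro u v huv
        by_contra hcon
        push Not at hcon
        have h1 : ∑ w, ind (R u w) = 1 := by
          rw [Finset.sum_eq_single v]
          · rw [ind_pos huv]
          · intro w _ hw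
            exact ind_neg (fun h => hcon w hw (hsymm _ _ h))
          · intro h; exact absurd (mem_univ _) h
        have := heven u
        rw [h1] at this
        exact Nat.not_even_one this
      obtain ⟨x, c, hc, hcR⟩ := exists_cycle R hadj hne hext
      have hdcR : ∀ u v, 0 < dc c u v → R u v := by
        intro u v h
        obtain ⟨d, hd, hd2⟩ := dc_pos c h
        have := hcR d hd
        rwa [show d.fst = u from congrArg Prod.fst hd2,
          show d.snd = v from congrArg Prod.snd hd2] at this
      have hle : ∀ u v, dc c u v + dc c v u ≤ 1 := by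
        intro u v
        by_cases huv : u = v
        · rw [huv, dc_self]; exact Nat.zero_le _
        · exact dc_le_one hc.isTrail huv
      have hsplit : ∀ u v, ind (R u v) =
          ind (R u v ∧ dc c u v + dc c v u = 0) + (dc c u v + dc c v u) := by
        intro u v
        by_cases hA : R u v
        · by_cases h0 : dc c u v + dc c v u = 0
          · rw [ind_pos hA, ind_pos ⟨hA, h0⟩, h0]
          · rw [ind_pos hA, ind_neg (fun h => h0 h.2)]
            have := hle u v
            omega
        · rw [ind_neg hA, ind_neg (fun h => hA h.1)]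
          have h1 : ¬ 0 < dc c u v := fun h => hA (hdcR u v h)
          have h2 : ¬ 0 < dc c v u := fun h => hA (hsymm _ _ (hdcR v u h))
          omega
      obtain ⟨d, hd⟩ := cycle_has_dart hc
      have hlt : ∑ u, ∑ v, ind (R u v ∧ dc c u v + dc c v u = 0) < n := by
        rw [← hcard, Finset.sum_congr rfl (fun u _ => Finset.sum_congr rfl (fun v _ => hsplit u v))]
        simp only [Finset.sum_add_distrib]
        have := sum2_pos (dc_pos_of_mem c hd)
        omega
      obtain ⟨g, hg1, hg2, hg3, hg4⟩ := ih _ hlt (fun u v => R u v ∧ dc c u v + dc c v u = 0) rfl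
        (fun u v h => hadj u v h.1) (fun u v h => ⟨hsymm u v h.1, by rw [add_comm]; exact h.2⟩) (by
          intro v
          have h1 := heven v
          rw [Finset.sum_congr rfl (fun w _ => hsplit v w), Finset.sum_add_distrib,
            Finset.sum_add_distrib, ← dc_closed c v, Nat.even_add] at h1
          exact h1.2 ⟨_, rfl⟩)
      refine ⟨fun u v => g u v + ((dc c u v : ℤ) - dc c v u), ?_, ?_, ?_, ?_⟩
      · intro u v
        have := hg1 u v
        simp only [this]
        ring
      · intro u v huv
        by_cases h0 : dc c u v + dc c v u = 0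
        · have h1 : dc c u v = 0 := by omega
          have h2 : dc c v u = 0 := by omega
          rcases hg2 u v ⟨huv, h0⟩ with h | h
          · left; simp only [h, h1, h2]; norm_num
          · right; simp only [h, h1, h2]; norm_num
        · have h1 := hg3 u v (fun h => h0 h.2)
          have h2 := hle u v
          simp only [h1]
          omega
      · intro u v huv
        have h1 := hg3 u v (fun h => huv h.1)
        have h2 : ¬ 0 < dc c u v := fun h => huv (hdcR u v h)
        have h3 : ¬ 0 < dc c v u := fun h => huv (hsymm _ _ (hdcR v u h))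
        simp only [h1]
        omega
      · intro u
        rw [Finset.sum_add_distrib, hg4, zero_add, Finset.sum_sub_distrib]
        have := dc_closed c u
        rw [← Nat.cast_sum, ← Nat.cast_sum, this, sub_self]
    · have hne' : ∀ u v, ¬ R u v := fun u v h => hne ⟨u, v, h⟩
      refine ⟨fun _ _ => 0, fun _ _ => by simp, fun u v h => absurd h (hne' u v),
        fun _ _ _ => rfl, fun _ => by simp⟩

/-- A conservative antisymmetric function with values in `{-1, 0, 1}` supported on edges gives a
list of directed cycles traversing exactly the arcs of value one. -/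
theorem flow_decomp [Fintype V] (g : V → V → ℤ) (hanti : ∀ u v, g v u = - g u v)
    (hval : ∀ u v, g u v = 0 ∨ g u v = 1 ∨ g u v = -1) (hsupp : ∀ u v, g u v ≠ 0 → G.Adj u v)
    (hcons : ∀ u, ∑ w, g u w = 0) :
    ∃ C : List (Σ v : V, G.Walk v v), (∀ c ∈ C, c.2.IsCycle) ∧
      ∀ u v, tot C u v = ind (g u v = 1) := by
  refine directed_decomp _ (fun u v => g u v = 1) rfl ?_ ?_ ?_
  · intro u v h
    exact hsupp u v (by rw [h]; norm_num)
  · intro u v h h'
    rw [hanti u v, h] at h'
    norm_num at h'
  · intro v
    have h1 := hcons v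
    have h2 : ∀ w, g v w = (ind (g v w = 1) : ℤ) - (ind (g w v = 1) : ℤ) := by
      intro w
      rw [hanti v w]
      rcases hval v w with h | h | h
      · rw [h, ind_neg (by norm_num), ind_neg (by norm_num)]; norm_num
      · rw [h, ind_pos rfl, ind_neg (by norm_num)]; norm_num
      · rw [h, ind_neg (by norm_num), ind_pos (by norm_num)]; norm_num
    rw [Finset.sum_congr rfl (fun w _ => h2 w), Finset.sum_sub_distrib, ← Nat.cast_sum,
      ← Nat.cast_sum] at h1
    omega

end Pool.Agent.TH505.OCDC
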