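import Pool.Agent.TH505.OCDC.Cover

set_option autoImplicit false

/-!
Two-fold and three-fold oriented covers.
-/

namespace Pool.Agent.TH505.OCDC

open Finset
open Pool.Agent.H126R2.CDC (T3)

variable {V : Type}

lemma sum_T3 (f : T3 → ℕ) : ((Finset.univ : Finset T3).toList.map f).sum = ∑ c, f c := by
  rw [Finset.sum_map_toList]

/-- Two-fold oriented covers: traverse a circuit double cover in both directions. -/
theorem kfold_two [Fintype V] (G : SimpleGraph V) (hG : NoCut G) : KFold G 2 := by
  obtain ⟨g, hg1, hg2, hg3, hg4⟩ := exists_flows G hG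
  have hval : ∀ c u v, g c u v = 0 ∨ g c u v = 1 ∨ g c u v = -1 := by
    intro c u v
    by_cases h : G.Adj u v
    · obtain ⟨a, b, hab, ha, hb, hc⟩ := hg4 u v h
      by_cases hca : c = a
      · rw [hca]; exact Or.inr ha
      · by_cases hcb : c = b
        · rw [hcb]; exact Or.inr hb
        · exact Or.inl (hc c hca hcb)
    · exact Or.inl (hg3 c u v h)
  have hsupp : ∀ c u v, g c u v ≠ 0 → G.Adj u v := by
    intro c u v h
    by_contra h'
    exact h (hg3 c u v h')
  obtain ⟨C, hC1, hC2⟩ := flows_decomp (G := G) (Finset.univ : Finset T3).toList g hg1 hval hsupp hg2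
  obtain ⟨D, hD1, hD2⟩ := flows_decomp (G := G) (Finset.univ : Finset T3).toList
    (fun c u v => - g c u v) (fun c u v => by rw [hg1 c u v]) (fun c u v => by
      rcases hval c u v with h | h | h <;> rw [h] <;> norm_num)
    (fun c u v h => hsupp c u v (fun h' => h (by rw [h', neg_zero])))
    (fun c u => by rw [Finset.sum_neg_distrib, hg2 c u, neg_zero])
  refine ⟨C ++ D, ?_, ?_⟩
  · intro c hc
    rw [List.mem_append] at hc
    rcases hc with hc | hc
    · exact hC1 c hc
    · exact hD1 c hc
  · intro u v huv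
    rw [tot_append, hC2, hD2, sum_T3, sum_T3, ← Finset.sum_add_distrib]
    obtain ⟨a, b, hab, ha, hb, hc⟩ := hg4 u v huv
    have h1 : ∀ x : ℤ, (x = 1 ∨ x = -1) → ind (x = 1) + ind (-x = 1) = 1 := by
      intro x hx
      rcases hx with h | h
      · rw [h, ind_pos rfl, ind_neg (by norm_num)]
      · rw [h, ind_neg (by norm_num), ind_pos (by norm_num)]
    rw [← Finset.sum_subset (Finset.subset_univ ({a, b} : Finset T3)), Finset.sum_pair hab,
      h1 _ ha, h1 _ hb]
    intro c _ hcab
    simp only [Finset.mem_insert, Finset.mem_singleton, not_or] at hcab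
    rw [hc c hcab.1 hcab.2, ind_neg (by norm_num), ind_neg (by norm_num), add_zero]

/-- index of a label -/
def idx (c : T3) : ℕ := (if c.1 then 4 else 0) + (if c.2.1 then 2 else 0) + (if c.2.2 then 1 else 0)

/-- eight rows of a Hadamard matrix of order twelve (Paley), all orthogonal to the all-one row;
`true` stands for `1` -/
def had (c : T3) (i : Fin 12) : Bool :=
  if i.1 = 0 then true else
    decide ((i.1 - 1 + 11 - idx c) % 11 ∈ [1, 3, 4, 5, 9])

def sgn (b : Bool) : ℤ := if b then 1 else -1

lemma had_count : ∀ a b : T3, a ≠ b → ∀ s t : Bool,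
    (Finset.univ.filter (fun i : Fin 12 =>
      (sgn (had a i) * sgn s + sgn (had b i) * sgn t) / 2 = 1)).card = 3 := by
  decide +kernel

lemma sgn_cases (b : Bool) : sgn b = 1 ∨ sgn b = -1 := by cases b <;> simp [sgn]

lemma exists_sgn {x : ℤ} (h : x = 1 ∨ x = -1) : ∃ s : Bool, x = sgn s := by
  rcases h with h | h
  · exact ⟨true, by rw [h]; rfl⟩
  · exact ⟨false, by rw [h]; rfl⟩

/-- Three-fold oriented covers. -/
theorem kfold_three [Fintype V] (G : SimpleGraph V) (hG : NoCut G) : KFold G 3 := by
  obtain ⟨g, hg1, hg2, hg3, hg4⟩ := exists_flows G hG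
  let f : Fin 12 → V → V → ℤ := fun i u v => ∑ c : T3, sgn (had c i) * g c u v
  have hf0 : ∀ i u v, ¬ G.Adj u v → f i u v = 0 := by
    intro i u v h
    apply Finset.sum_eq_zero
    intro c _
    rw [hg3 c u v h, mul_zero]
  have hf1 : ∀ u v, G.Adj u v → ∃ a b : T3, a ≠ b ∧ ∃ s t : Bool, ∀ i,
      f i u v = sgn (had a i) * sgn s + sgn (had b i) * sgn t := by
    intro u v h
    obtain ⟨a, b, hab, ha, hb, hc⟩ := hg4 u v h
    obtain ⟨s, hs⟩ := exists_sgn ha
    obtain ⟨t, ht⟩ := exists_sgn hb
    refine ⟨a, b, hab, s, t, fun i => ?_⟩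
    simp only [f]
    rw [← Finset.sum_subset (Finset.subset_univ ({a, b} : Finset T3)), Finset.sum_pair hab, hs, ht]
    intro c _ hcab
    simp only [Finset.mem_insert, Finset.mem_singleton, not_or] at hcab
    rw [hc c hcab.1 hcab.2, mul_zero]
  have hdvd : ∀ i u v, f i u v = 2 * (f i u v / 2) ∧
      (f i u v / 2 = 0 ∨ f i u v / 2 = 1 ∨ f i u v / 2 = -1) := by
    intro i u v
    by_cases h : G.Adj u v
    · obtain ⟨a, b, _, s, t, hst⟩ := hf1 u v h
      rw [hst i]
      rcases sgn_cases (had a i) with h1 | h1 <;> rcases sgn_cases (had b i) with h2 | h2 <;>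
        rcases sgn_cases s with h3 | h3 <;> rcases sgn_cases t with h4 | h4 <;>
        rw [h1, h2, h3, h4] <;> norm_num
    · rw [hf0 i u v h]; norm_num
  have hanti : ∀ i u v, f i v u / 2 = - (f i u v / 2) := by
    intro i u v
    have h1 : f i v u = - f i u v := by
      simp only [f]
      rw [← Finset.sum_neg_distrib]
      apply Finset.sum_congr rfl
      intro c _
      rw [hg1 c u v]; ring
    have h2 := (hdvd i u v).1
    have h3 := (hdvd i v u).1
    omega
  have hcons : ∀ i u, ∑ w, f i u w / 2 = 0 := by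
    intro i u
    have h1 : ∑ w, f i u w = 0 := by
      simp only [f]
      rw [Finset.sum_comm]
      apply Finset.sum_eq_zero
      intro c _
      rw [← Finset.mul_sum, hg2 c u, mul_zero]
    rw [Finset.sum_congr rfl (fun w _ => (hdvd i u w).1), ← Finset.mul_sum] at h1
    omega
  obtain ⟨C, hC1, hC2⟩ := flows_decomp (G := G) (Finset.univ : Finset (Fin 12)).toList
    (fun i u v => f i u v / 2) hanti (fun i u v => (hdvd i u v).2) (fun i u v h => by
      by_contra h'
      exact h (by simp only [hf0 i u v h']; norm_num)) hcons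
  refine ⟨C, hC1, fun u v huv => ?_⟩
  rw [hC2, Finset.sum_map_toList]
  obtain ⟨a, b, hab, s, t, hst⟩ := hf1 u v huv
  rw [← had_count a b hab s t, Finset.card_filter]
  apply Finset.sum_congr rfl
  intro i _
  rw [hst i]
  by_cases h : (sgn (had a i) * sgn s + sgn (had b i) * sgn t) / 2 = 1
  · rw [ind_pos h, if_pos h]
  · rw [ind_neg h, if_neg h]

/-- Every bridgeless finite simple graph has a `k`-fold oriented cover by cycles, `k ≥ 2`. -/
theorem kfold [Fintype V] (G : SimpleGraph V) (hG : NoCut G) : ∀ k, 2 ≤ k → KFold G k := by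
  intro k
  induction k using Nat.strong_induction_on with
  | _ k ih =>
    intro hk
    rcases Nat.lt_or_ge k 4 with h | h
    · have : k = 2 ∨ k = 3 := by omega
      rcases this with rfl | rfl
      · exact kfold_two G hG
      · exact kfold_three G hG
    · have h1 := ih (k - 2) (by omega) (by omega)
      have h2 := h1.add (kfold_two G hG)
      rwa [show k - 2 + 2 = k by omega] at h2

end Pool.Agent.TH505.OCDC
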