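import Mathlib

set_option autoImplicit false

/-!
Directed walks, counting arcs of walks, existence of directed cycles.
-/

namespace Pool.Agent.TH505.OCDC

open Finset

variable {V : Type} {G : SimpleGraph V}

open scoped Classical in
/-- number of times the walk traverses the arc `(u, v)` -/
noncomputable def dc {x y : V} (p : G.Walk x y) (u v : V) : ℕ :=
  (p.darts.filter (fun d => decide (d.toProd = (u, v)))).length

open scoped Classical in
lemma dc_nil {x : V} (u v : V) : dc (SimpleGraph.Walk.nil : G.Walk x x) u v = 0 := by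
  simp [dc]

open scoped Classical in
lemma dc_cons {x y z : V} (h : G.Adj x y) (p : G.Walk y z) (u v : V) :
    dc (SimpleGraph.Walk.cons h p) u v = (if x = u ∧ y = v then 1 else 0) + dc p u v := by
  unfold dc
  rw [SimpleGraph.Walk.darts_cons, List.filter_cons]
  by_cases hx : x = u ∧ y = v
  · rw [if_pos (by simp [hx.1, hx.2]), if_pos hx, List.length_cons]
    omega
  · rw [if_neg (by simpa using hx), if_neg hx]
    omega

open scoped Classical in
/-- A walk leaves every vertex as often as it enters it, up to its ends. -/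
lemma dc_balance [Fintype V] {x y : V} (p : G.Walk x y) (v : V) :
    (∑ w, dc p v w) + (if y = v then 1 else 0) = (∑ w, dc p w v) + (if x = v then 1 else 0) := by
  induction p with
  | nil => simp [dc_nil]
  | @cons a b c h p ih =>
    simp only [dc_cons, Finset.sum_add_distrib]
    have h1 : ∑ w, (if a = v ∧ b = w then (1 : ℕ) else 0) = if a = v then 1 else 0 := by
      by_cases hx : a = v
      · simp [hx]
      · simp [hx]
    have h2 : ∑ w, (if a = w ∧ b = v then (1 : ℕ) else 0) = if b = v then 1 else 0 := by
      by_cases hx : b = v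
      · simp [hx]
      · simp [hx]
    rw [h1, h2]
    omega

lemma dc_closed [Fintype V] {x : V} (p : G.Walk x x) (v : V) :
    (∑ w, dc p v w) = ∑ w, dc p w v := by
  classical
  have := dc_balance p v
  omega

lemma dc_pos {x y : V} (p : G.Walk x y) {u v : V} (h : 0 < dc p u v) :
    ∃ d ∈ p.darts, d.toProd = (u, v) := by
  classical
  unfold dc at h
  rw [List.length_pos_iff_exists_mem] at h
  obtain ⟨d, hd⟩ := h
  rw [List.mem_filter] at hd
  exact ⟨d, hd.1, by simpa using hd.2⟩

lemma dc_adj {x y : V} (p : G.Walk x y) {u v : V} (h : 0 < dc p u v) : G.Adj u v := by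
  obtain ⟨d, _, hd⟩ := dc_pos p h
  have := d.adj
  rw [show d.fst = u from congrArg Prod.fst hd, show d.snd = v from congrArg Prod.snd hd] at this
  exact this

open scoped Classical in
lemma dc_add_le_count {x y : V} (p : G.Walk x y) {u v : V} (huv : u ≠ v) :
    dc p u v + dc p v u = p.edges.count s(u, v) := by
  induction p with
  | nil => simp [dc_nil]
  | @cons a b c h p ih =>
    rw [dc_cons, dc_cons, SimpleGraph.Walk.edges_cons, List.count_cons, ← ih]
    by_cases h1 : a = u ∧ b = v
    · have h2 : ¬ (a = v ∧ b = u) := fun h3 => huv (h1.1.symm.trans h3.1)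
      rw [if_pos h1, if_neg h2, if_pos (by simp [h1.1, h1.2])]
      omega
    · by_cases h2 : a = v ∧ b = u
      · rw [if_neg h1, if_pos h2, if_pos (by simp [h2.1, h2.2])]
        omega
      · rw [if_neg h1, if_neg h2, if_neg]
        · omega
        · simp only [beq_iff_eq, Sym2.eq_iff]
          tauto

lemma dc_le_one {x y : V} {p : G.Walk x y} (hp : p.IsTrail) {u v : V} (huv : u ≠ v) :
    dc p u v + dc p v u ≤ 1 := by
  classical
  rw [dc_add_le_count p huv]
  exact List.nodup_iff_count_le_one.1 hp.edges_nodup _

lemma dc_self {x y : V} (p : G.Walk x y) (u : V) : dc p u u = 0 := by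
  by_contra h
  exact G.irrefl (dc_adj p (Nat.pos_of_ne_zero h))

/-- The first dart of a path is the only one leaving the first vertex. -/
lemma path_dart_fst {x y z : V} (h : G.Adj x y) (p : G.Walk y z)
    (hp : (SimpleGraph.Walk.cons h p).IsPath) (d : G.Dart)
    (hd : d ∈ (SimpleGraph.Walk.cons h p).darts) (hx : d.fst = x) : d.snd = y := by
  rw [SimpleGraph.Walk.darts_cons, List.mem_cons] at hd
  rcases hd with hd | hd
  · rw [hd]
  · exfalso
    have h1 := SimpleGraph.Walk.dart_fst_mem_support_of_mem_darts _ hd
    rw [hx] at h1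
    exact ((SimpleGraph.Walk.cons_isPath_iff h p).1 hp).2 h1

/-- Existence of a directed cycle of length at least three: if every arc of a relation can be
preceded by an arc that does not come from its head, there is a cycle all of whose darts are
arcs of the relation. -/
theorem exists_cycle [Finite V] (R : V → V → Prop) (hR : ∀ u v, R u v → G.Adj u v)
    (hne : ∃ u v, R u v) (hext : ∀ u v, R u v → ∃ w, w ≠ v ∧ R w u) :
    ∃ (x : V) (c : G.Walk x x), c.IsCycle ∧ ∀ d ∈ c.darts, R d.fst d.snd := by
  classical
  have : Fintype V := Fintype.ofFinite V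
  -- a longest path
  let P : ℕ → Prop := fun n => ∃ (a b c : V) (h : G.Adj a b) (q : G.Walk b c),
    (SimpleGraph.Walk.cons h q).IsPath ∧
    (∀ d ∈ (SimpleGraph.Walk.cons h q).darts, R d.fst d.snd) ∧
    (SimpleGraph.Walk.cons h q).length = n
  have hP0 : ∃ n, P n := by
    obtain ⟨u, v, huv⟩ := hne
    have hadj := hR u v huv
    refine ⟨_, u, v, v, hadj, SimpleGraph.Walk.nil, ?_, ?_, rfl⟩
    · rw [SimpleGraph.Walk.cons_isPath_iff]
      refine ⟨SimpleGraph.Walk.IsPath.nil, ?_⟩
      simp [hadj.ne]
    · intro d hd
      rw [SimpleGraph.Walk.darts_cons, SimpleGraph.Walk.darts_nil, List.mem_singleton] at hd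
      rw [hd]
      exact huv
  have hbound : ∀ n, P n → n ≤ Fintype.card V := by
    rintro n ⟨a, b, c, h, q, hp, _, hn⟩
    rw [← hn]
    exact hp.length_lt.le
  obtain ⟨n, hn, hmax⟩ : ∃ n, P n ∧ ∀ m, P m → m ≤ n := by
    obtain ⟨n0, hn0⟩ := hP0
    refine ⟨Nat.findGreatest P (Fintype.card V), Nat.findGreatest_spec (hbound n0 hn0) hn0, ?_⟩
    intro m hm
    exact Nat.le_findGreatest (hbound m hm) hm
  obtain ⟨a, b, c, h, q, hp, hd, hlen⟩ := hn
  have hab : R a b := hd ⟨(a, b), h⟩ (by simp [SimpleGraph.Walk.darts_cons])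
  obtain ⟨w, hwb, hwa⟩ := hext a b hab
  have hadj : G.Adj w a := hR w a hwa
  by_cases hw : w ∈ (SimpleGraph.Walk.cons h q).support
  · -- close the cycle
    set p := SimpleGraph.Walk.cons h q with hpdef
    refine ⟨w, SimpleGraph.Walk.cons hadj (p.takeUntil w hw), ?_, ?_⟩
    · rw [SimpleGraph.Walk.cons_isCycle_iff]
      refine ⟨hp.takeUntil hw, ?_⟩
      intro he
      -- the first dart of `takeUntil`
      have hq' : (p.takeUntil w hw).IsPath := hp.takeUntil hw
      have hsub : ∀ d ∈ (p.takeUntil w hw).darts, d ∈ p.darts :=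
        fun d hd => SimpleGraph.Walk.darts_takeUntil_subset_darts p hw hd
      generalize p.takeUntil w hw = t at he hq' hsub
      cases t with
      | nil => simp at he
      | @cons _ b' _ h' q' =>
        have hb' : b' = b := by
          have h1 : (⟨(a, b'), h'⟩ : G.Dart) ∈ p.darts := hsub _ (by simp)
          exact path_dart_fst h q hp ⟨(a, b'), h'⟩ h1 rfl
        rw [SimpleGraph.Walk.edges_cons, List.mem_cons] at he
        rcases he with he | he
        · rw [Sym2.eq_iff] at he
          rcases he with ⟨h1, h2⟩ | ⟨h1, _⟩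
          · exact hadj.ne h1
          · exact hwb (h1.trans hb')
        · have h1 : a ∈ q'.support :=
            SimpleGraph.Walk.snd_mem_support_of_mem_edges q' he
          exact ((SimpleGraph.Walk.cons_isPath_iff h' q').1 hq').2 h1
    · intro d hdd
      rw [SimpleGraph.Walk.darts_cons, List.mem_cons] at hdd
      rcases hdd with hdd | hdd
      · rw [hdd]; exact hwa
      · exact hd d (SimpleGraph.Walk.darts_takeUntil_subset_darts p hw hdd)
  · exfalso
    have h1 : P ((SimpleGraph.Walk.cons h q).length + 1) := by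
      refine ⟨w, a, c, hadj, SimpleGraph.Walk.cons h q, ?_, ?_, rfl⟩
      · rw [SimpleGraph.Walk.cons_isPath_iff]
        exact ⟨hp, hw⟩
      · intro d hdd
        rw [SimpleGraph.Walk.darts_cons, List.mem_cons] at hdd
        rcases hdd with hdd | hdd
        · rw [hdd]; exact hwa
        · exact hd d hdd
    have := hmax _ h1
    omega

end Pool.Agent.TH505.OCDC
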